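import Pool.Agent.Helper44_R30B.ZCB

/-!
# Rule 30: two consecutive long runs of zeros of different lengths

The statement `Zcb2Stmt` is the row ZCB of the squad R30B for two runs of zeros of different lengths
(`s1`, `s2`), with a margin `K`; the proof is the one of `H44.zcb`.
-/

set_option autoImplicit false

namespace Pool.Agent.H16R30C

open Pool.Agent.H21R30 Pool.Agent.R30B Pool.Agent.R30B.H44

/-- A run of `s1` zeros, then `r` steps which begin and end with a one, then a run of `s2` zeros. -/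
def Zcb2Stmt : Prop := ∀ r K : ℕ, 1 ≤ r → 2 * r + 1 ≤ K → ∃ S : ℕ, ∀ s1 s2, S ≤ s1 → S ≤ s2 →
  ∀ D, Dia D → (∀ t < s1, D t 0 = false) → D s1 0 = true → D (s1 + r - 1) 0 = true →
  (∀ t < s2, D (s1 + r + t) 0 = false) →
  D (s1 - K) 1 = false → D (s1 + r + (s2 - K)) 1 = false → False

theorem zcb2 (wht : WhtStmt) (blk : BlkStmt) (edg : EdgStmt) : Zcb2Stmt := by
  intro r K hr hK
  obtain ⟨J, hJ⟩ : ∃ J, J = 2 * r + 2 * K + 4 := ⟨_, rfl⟩
  obtain ⟨Q, hQ⟩ : ∃ Q, Q = 2 ^ J := ⟨_, rfl⟩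
  have hQ1 : 1 ≤ Q := by rw [hQ]; exact Nat.one_le_two_pow
  obtain ⟨V, hV⟩ : ∃ V, V = 4 * Q + 4 := ⟨_, rfl⟩
  obtain ⟨C, hC⟩ := edg J V
  refine ⟨C + K + r + J + V + 10, ?_⟩
  intro s1 s2 hs hs' D hD hz hs1 hp1 hz2 ha1 ha2
  obtain ⟨a, ha⟩ : ∃ a, a = s1 - K := ⟨_, rfl⟩
  obtain ⟨b, hb⟩ : ∃ b, b = s2 - K := ⟨_, rfl⟩
  rw [← ha] at ha1
  rw [← hb] at ha2
  -- Steps 1 and 2
  have hm1 := mono1 D hD s1 a hz (by omega) ha1
  have hD' : Dia (fun t k => D (s1 + r + t) k) := fun t k => hD (s1 + r + t) k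
  have hm2 := mono1 (fun t k => D (s1 + r + t) k) hD' s2 b hz2 (by omega) ha2
  have hw1 := wht D hD a (fun t ht => hz t (by omega)) hm1
  have hw2 := wht (fun t k => D (s1 + r + t) k) hD' b (fun t ht => hz2 t (by omega)) hm2
  have hrow0 : ∀ k, k ≤ a + 1 → D 0 k = false := by
    intro k hk
    rcases k with _ | k
    · exact hz 0 (by omega)
    · exact hw1 0 (k + 1) (by omega) (by omega)
  have hrowp : ∀ k, 1 ≤ k → k ≤ b + 1 → D (s1 + r) k = false := by
    intro k h1 h2
    exact hw2 0 k h1 (by omega)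
  -- Step 3
  have hblk : ∀ k, k < b + 1 → D (s1 + r - 1) k = true := by
    apply blk D hD (s1 + r - 1) (b + 1) hp1
    intro k h1 h2
    rw [show s1 + r - 1 + 1 = s1 + r by omega]
    exact hrowp k h1 h2
  -- Step 4
  have hex : ∃ k, k ≤ s1 + 2 * r + 1 ∧ D 0 k = true := by
    by_contra hcon
    have h0 : ∀ k ≤ s1 + 2 * r + 1, D 0 k = false := by
      intro k hk
      by_contra hne
      rw [Bool.not_eq_false] at hne
      exact hcon ⟨k, hk, hne⟩
    have hwh := white D hD s1 (s1 + 2 * r + 1) hz h0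
    have hre := (redge D hD s1 r hs1
      (fun k h1 h2 => hwh s1 k le_rfl (fun hc => by omega) (by omega)) r le_rfl).1
    rw [hrowp r hr (by omega)] at hre
    exact Bool.noConfusion hre
  obtain ⟨e, he1, he2, he3⟩ : ∃ e, e ≤ s1 + 2 * r + 1 ∧ D 0 e = true ∧
      ∀ k < e, D 0 k = false := by
    classical
    have hex' : ∃ k, D 0 k = true := ⟨hex.choose, hex.choose_spec.2⟩
    refine ⟨Nat.find hex', ?_, Nat.find_spec hex', ?_⟩
    · exact le_trans (Nat.find_min' hex' hex.choose_spec.2) hex.choose_spec.1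
    · intro k hk
      have := Nat.find_min hex' hk
      rwa [Bool.not_eq_true] at this
  have hea : a + 2 ≤ e := by
    by_contra hcon
    have := hrow0 e (by omega)
    rw [he2] at this
    exact Bool.noConfusion this
  have hwh := white D hD s1 (e - 1) hz (fun k hk => he3 k (by omega))
  -- Step 5
  have hL0 : ∀ t, t ≤ (e + 0 + a) / 2 → D t (e + 0 - t) = true := by
    intro t
    induction t with
    | zero => intro _; exact he2
    | succ t ih =>
      intro ht
      have h1 := ih (by omega)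
      have e1 : e + 0 - (t + 1) = (e - t - 2) + 1 := by omega
      have e2 : e + 0 - t = (e - t - 2) + 2 := by omega
      rw [e2] at h1
      rw [e1, hD t (e - t - 2), h1,
        hwh t (e - t - 2) (by omega) (fun hc => by omega) (by omega)]
      cases D t (e - t - 2 + 1) <;> rfl
  have hL1 : ∀ t, 1 ≤ t → t ≤ (e + 1 + a) / 2 → D t (e + 1 - t) = true := by
    intro t ht1 ht2
    obtain ⟨t, rfl⟩ : ∃ k, t = k + 1 := ⟨t - 1, by omega⟩
    have h1 := hL0 t (by omega)
    have e1 : e + 1 - (t + 1) = (e - t - 1) + 1 := by omega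
    have e2 : e + 0 - t = (e - t - 1) + 1 := by omega
    rw [e2] at h1
    rw [e1, hD t (e - t - 1), h1,
      hwh t (e - t - 1) (by omega) (fun hc => by omega) (by omega)]
    rfl
  have hLr : ∀ j t, t + 1 ≤ (e + (j + 2) + a) / 2 →
      D (t + 1) (e + (j + 2) - (t + 1)) =
        Bool.xor (D t (e + j - t)) (D t (e + (j + 1) - t) || D t (e + (j + 2) - t)) := by
    intro j t ht
    have e1 : e + (j + 2) - (t + 1) = (e + j - t) + 1 := by omega
    have e2 : e + (j + 1) - t = (e + j - t) + 1 := by omega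
    have e3 : e + (j + 2) - t = (e + j - t) + 2 := by omega
    rw [e1, e2, e3]
    exact hD t (e + j - t)
  -- Step 6
  have hfin : ∀ j, J ≤ j → j < J + V → D (s1 + r - 1) (e + j - (s1 + r - 1)) = true := by
    intro j h1 h2
    exact hblk _ (by omega)
  have hE := hC (fun j t => D t (e + j - t)) (fun j => (e + j + a) / 2)
    (fun j => by show (e + j + a) / 2 ≤ (e + (j + 1) + a) / 2; omega)
    (fun j => by show (e + (j + 2) + a) / 2 ≤ (e + j + a) / 2 + 1; omega)
    hL0 hL1 hLr (s1 + r - 1) (by omega)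
    (by show s1 + r - 1 ≤ (e + J + a) / 2; omega) hfin
  rw [← hQ] at hE
  -- Step 7
  have hb : ∀ i < V, D (s1 + r - 1 - Q) (e + J - (s1 + r - 1 - Q) + i) = true := by
    intro i hi
    have h1 := hE (J + i) (by omega) (by omega)
    have e1 : e + (J + i) - (s1 + r - 1 - Q) = e + J - (s1 + r - 1 - Q) + i := by omega
    have h2 : D (s1 + r - 1 - Q) (e + (J + i) - (s1 + r - 1 - Q)) = true := h1
    rwa [e1] at h2
  have hsh := shrink D hD (s1 + r - 1 - Q) (e + J - (s1 + r - 1 - Q)) V hb (Q - 1) Q (by omega)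
    (by omega)
  have hbl := hfin (J + 2 * Q) (by omega) (by omega)
  have e1 : s1 + r - 1 - Q + 1 + (Q - 1) = s1 + r - 1 := by omega
  have e2 : e + J - (s1 + r - 1 - Q) + Q = e + (J + 2 * Q) - (s1 + r - 1) := by omega
  rw [e1, e2, hbl] at hsh
  exact Bool.noConfusion hsh

end Pool.Agent.H16R30C
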