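import Pool.Agent.Helper15_R30B.ZCA
import Pool.Agent.Helper16_R30C.Zcb2

/-!
# Rule 30: a column all of whose short runs of ones follow long runs of zeros
-/

set_option autoImplicit false

namespace Pool.Agent.H16R30C

open Pool.Agent.H21R30 Pool.Agent.R30B Pool.Agent.R30B.H15

/-- in a run of zeros of the driver column `1` is monotone -/
theorem mono2 {D : ℕ → ℕ → Bool} (h : Dia D) {a b : ℕ}
    (hz : ∀ t, a ≤ t → t < b → D t 0 = false) (ha : D a 1 = true) :
    ∀ t, a ≤ t → t ≤ b → D t 1 = true := by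
  intro t hat
  induction t, hat using Nat.le_induction with
  | base => exact fun _ => ha
  | succ t ht ih =>
    intro hb
    have h1 := h t 0
    rw [hz t ht (by omega), zero_add, ih (by omega), Bool.true_or] at h1
    exact h1

/-- after a run of at least nine ones column `1` is `0` at the first zero and `1` afterwards -/
theorem ostep (pat : PatStmt) {D : ℕ → ℕ → Bool} (h : Dia D) {s n z : ℕ} (hn : 9 ≤ n)
    (ho : ∀ t, s ≤ t → t < s + n → D t 0 = true)
    (hz : ∀ t, s + n ≤ t → t < s + n + z → D t 0 = false) :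
    D (s + n) 1 = false ∧ ∀ v, 1 ≤ v → v ≤ z → D (s + n + v) 1 = true := by
  have hp := pat _ (dia_shift h s) n 1 le_rfl (by omega) (fun t ht => ho (s + t) (by omega)
    (by omega))
  have h1 : D (s + n) 1 = false := hp.1 n (by omega) (by omega)
  have h2 : D (s + n) 2 = true := hp.2 n (by omega) (by omega)
  refine ⟨h1, fun v hv1 hv2 => ?_⟩
  have h3 := h (s + n) 0
  rw [hz (s + n) le_rfl (by omega), zero_add, zero_add, h1, h2] at h3
  exact mono2 h (a := s + n + 1) (b := s + n + z) (fun t ht1 ht2 => hz t (by omega) ht2) h3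
    (s + n + v) (by omega) (by omega)

/-- after a run of at most eight ones, at the beginning of which column `1` was `1` for a long
time, column `1` is `1` at the times `≥ 21` of the next run of zeros -/
theorem qstep (pat : PatStmt) (wht : WhtStmt) {D : ℕ → ℕ → Bool} (h : Dia D) {t1 m z : ℕ}
    (hm : m ≤ 8) (ht1 : 90 ≤ t1) (hc : ∀ t, t1 ≤ t + 90 → t ≤ t1 → D t 1 = true)
    (hz : ∀ t, t1 + m ≤ t → t < t1 + m + z → D t 0 = false) :
    ∀ v, 21 ≤ v → v ≤ z → D (t1 + m + v) 1 = true := by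
  intro v hv1 hv2
  have hp := (pat _ (dia_shift (dia_col h) (t1 - 90)) 91 (m + 2) (by omega) (by omega)
    (fun t ht => hc (t1 - 90 + t) (by omega) (by omega))).2 (90 + m) (by omega) (by omega)
  have hp' : D (t1 + m) (2 * m + 5) = true := by
    have e1 : t1 - 90 + (90 + m) = t1 + m := by omega
    have e2 : 2 * (m + 2) + 1 = 2 * m + 5 := by omega
    have hp2 : D (t1 - 90 + (90 + m)) (2 * (m + 2) + 1) = true := hp
    rw [e1, e2] at hp2
    exact hp2
  have hex : ∃ t ≤ 2 * m + 5, D (t1 + m + t) 1 = true := by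
    by_contra hne
    have hw := wht _ (dia_shift h (t1 + m)) (2 * m + 5)
      (fun t ht => hz (t1 + m + t) (by omega) (by omega))
      (fun t ht => by
        by_contra hc
        exact hne ⟨t, ht, by simpa using hc⟩) 0 (2 * m + 5) (by omega) (by omega)
    have hw2 : D (t1 + m + 0) (2 * m + 5) = false := hw
    rw [add_zero, hp'] at hw2
    exact absurd hw2 (by decide)
  obtain ⟨t, ht, hD⟩ := hex
  exact mono2 h (a := t1 + m + t) (b := t1 + m + z)
    (fun q hq1 hq2 => hz q (by omega) hq2) hD (t1 + m + v) (by omega) (by omega)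

/-- `x` has a one at `u`, zeros at `u + 1, ..., u + z`, ones at `u + z + 1, ..., u + z + m` and a
zero at `u + z + m + 1`. -/
def Blk (x : ℕ → Bool) (u z m : ℕ) : Prop :=
  1 ≤ z ∧ 1 ≤ m ∧ x u = true ∧ (∀ t, u < t → t ≤ u + z → x t = false) ∧
    (∀ t, u + z < t → t ≤ u + z + m → x t = true) ∧ x (u + z + m + 1) = false

/-- from a change to the next value -/
theorem next_run {x : ℕ → Bool} {b : Bool} {u : ℕ} (h1 : x (u + 1) = !b)
    (hinf : ∀ T, ∃ t, T ≤ t ∧ x t = b) :
    ∃ z, 1 ≤ z ∧ (∀ t, u < t → t ≤ u + z → x t = !b) ∧ x (u + z + 1) = b := by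
  classical
  have hex : ∃ z, 1 ≤ z ∧ x (u + z + 1) = b := by
    obtain ⟨t, ht1, ht2⟩ := hinf (u + 2)
    exact ⟨t - u - 1, by omega, by rw [show u + (t - u - 1) + 1 = t by omega]; exact ht2⟩
  refine ⟨Nat.find hex, (Nat.find_spec hex).1, fun t ht1 ht2 => ?_, (Nat.find_spec hex).2⟩
  rcases Nat.lt_or_ge t (u + 2) with h | h
  · rw [show t = u + 1 by omega]; exact h1
  · have h3 := Nat.find_min hex (m := t - u - 1) (by omega)
    have h4 : ¬ x t = b := by
      intro h5
      exact h3 ⟨by omega, by rw [show u + (t - u - 1) + 1 = t by omega]; exact h5⟩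
    revert h4
    cases x t <;> cases b <;> simp

/-- a block from each end of a run of ones -/
theorem exists_blk {x : ℕ → Bool} {u : ℕ} (h0 : x u = true) (h1 : x (u + 1) = false)
    (hinf : ∀ T, ∃ t, T ≤ t ∧ x t = true) (hinf' : ∀ T, ∃ t, T ≤ t ∧ x t = false) :
    ∃ z m, Blk x u z m := by
  obtain ⟨z, hz1, hz2, hz3⟩ := next_run (b := true) (u := u) (by simpa using h1) hinf
  obtain ⟨m, hm1, hm2, hm3⟩ := next_run (b := false) (u := u + z) (by simpa using hz3) hinf'
  exact ⟨z, m, hz1, hm1, h0, fun t ht1 ht2 => by simpa using hz2 t ht1 ht2,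
    fun t ht1 ht2 => by simpa using hm2 t ht1 ht2, hm3⟩

/-- the end of the last run of ones before `t`, and the position of `t` in its run -/
theorem last_end {x : ℕ → Bool} {w : ℕ} (h0 : x w = true) (h1 : x (w + 1) = false) :
    ∀ t, w < t → ∃ u, w ≤ u ∧ u < t ∧ x u = true ∧ x (u + 1) = false ∧
      ∃ z, 1 ≤ z ∧ (∀ q, u < q → q ≤ u + z → x q = false) ∧ u + z ≤ t ∧
        (∀ q, u + z < q → q ≤ t → x q = true) := by
  intro t hwt
  induction t, hwt using Nat.le_induction with
  | base =>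
    refine ⟨w, le_rfl, by omega, h0, h1, 1, le_rfl, fun q hq1 hq2 => ?_, by omega,
      fun q hq1 hq2 => by omega⟩
    rw [show q = w + 1 by omega]
    exact h1
  | succ t ht ih =>
    obtain ⟨u, hu1, hu2, hu3, hu4, z, hz1, hz2, hz3, hz4⟩ := ih
    by_cases hx : x (t + 1) = true
    · refine ⟨u, hu1, by omega, hu3, hu4, z, hz1, hz2, by omega, fun q hq1 hq2 => ?_⟩
      rcases Nat.lt_or_ge t q with h | h
      · rw [show q = t + 1 by omega]; exact hx
      · exact hz4 q hq1 h
    · rw [Bool.not_eq_true] at hx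
      rcases Nat.lt_or_ge (u + z) t with h | h
      · refine ⟨t, by omega, by omega, hz4 t h le_rfl, hx, 1, le_rfl, fun q hq1 hq2 => ?_,
          le_rfl, fun q hq1 hq2 => by omega⟩
        rw [show q = t + 1 by omega]
        exact hx
      · refine ⟨u, hu1, by omega, hu3, hu4, z + 1, by omega, fun q hq1 hq2 => ?_, by omega,
          fun q hq1 hq2 => by omega⟩
        rcases Nat.lt_or_ge (u + z) q with h' | h'
        · rw [show q = t + 1 by omega]; exact hx
        · exact hz2 q hq1 h'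

/-- the previous block -/
theorem prev_blk {x : ℕ → Bool} {w : ℕ} (h0 : x w = true) (h1 : x (w + 1) = false) {u' : ℕ}
    (hw : w < u') (h2 : x u' = true) (h3 : x (u' + 1) = false) :
    ∃ u z m, w ≤ u ∧ Blk x u z m ∧ u' = u + z + m := by
  obtain ⟨u, hu1, hu2, hu3, hu4, z, hz1, hz2, hz3, hz4⟩ := last_end h0 h1 u' hw
  have hne : u + z ≠ u' := by
    intro he
    have := hz2 u' (by omega) (by omega)
    rw [h2] at this
    exact Bool.noConfusion this
  refine ⟨u, z, u' - (u + z), hu1, ⟨hz1, by omega, hu3, hz2, fun t ht1 ht2 => hz4 t ht1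
    (by omega), ?_⟩, by omega⟩
  rw [show u + z + (u' - (u + z)) + 1 = u' + 1 by omega]
  exact h3

/-- the last end of a run of ones before a zero -/
theorem zero_end {x : ℕ → Bool} {w : ℕ} (h0 : x w = true) (h1 : x (w + 1) = false) {t : ℕ}
    (hw : w < t) (h2 : x t = false) :
    ∃ u, w ≤ u ∧ u < t ∧ x u = true ∧ ∀ q, u < q → q ≤ t → x q = false := by
  obtain ⟨u, hu1, hu2, hu3, hu4, z, hz1, hz2, hz3, hz4⟩ := last_end h0 h1 t hw
  have he : u + z = t := by
    by_contra hne
    have := hz4 t (by omega) le_rfl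
    rw [h2] at this
    exact Bool.noConfusion this
  exact ⟨u, hu1, hu2, hu3, fun q hq1 hq2 => hz2 q hq1 (by omega)⟩

/-- `D` has the property `Q` at the end `u` of a run of ones: column `1` is `1` at the times `≥ 21`
of the following run of zeros. -/
def Qp (D : ℕ → ℕ → Bool) (u : ℕ) : Prop :=
  ∀ v, 21 ≤ v → (∀ t, u < t → t ≤ u + v → D t 0 = false) → D (u + 1 + v) 1 = true

/-- long run of ones -/
theorem qp_long (pat : PatStmt) {D : ℕ → ℕ → Bool} (h : Dia D) {u z m : ℕ}
    (hb : Blk (fun t => D t 0) u z m) (hm : 9 ≤ m) : Qp D (u + z + m) := by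
  intro v hv hz
  obtain ⟨hz1, hm1, h0, h1, h2, h3⟩ := hb
  have h4 := (ostep pat h (s := u + z + 1) (n := m) (z := v) hm
    (fun t ht1 ht2 => h2 t (by omega) (by omega))
    (fun t ht1 ht2 => hz t (by omega) (by omega))).2 v (by omega) le_rfl
  rw [show u + z + 1 + m + v = u + z + m + 1 + v by omega] at h4
  exact h4

/-- short run of ones after a long run of zeros in which column `1` became `1` early -/
theorem qp_short (pat : PatStmt) (wht : WhtStmt) {D : ℕ → ℕ → Bool} (h : Dia D) {u z m : ℕ}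
    (hb : Blk (fun t => D t 0) u z m) (hm : m ≤ 8) (hz : 90 ≤ z)
    (hc : D (u + 1 + z - 90) 1 = true) : Qp D (u + z + m) := by
  intro v hv hz'
  obtain ⟨hz1, hm1, h0, h1, h2, h3⟩ := hb
  have hmono := mono2 h (a := u + 1 + z - 90) (b := u + 1 + z)
    (fun t ht1 ht2 => h1 t (by omega) (by omega)) hc
  have h4 := qstep pat wht h (t1 := u + 1 + z) (m := m) (z := v) hm (by omega)
    (fun t ht1 ht2 => hmono t (by omega) ht2)
    (fun t ht1 ht2 => hz' t (by omega) (by omega)) v hv le_rfl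
  rw [show u + 1 + z + m + v = u + z + m + 1 + v by omega] at h4
  exact h4

/-- step of the induction -/
theorem qp_step (pat : PatStmt) (wht : WhtStmt) {D : ℕ → ℕ → Bool} (h : Dia D) {u z m : ℕ}
    (hb : Blk (fun t => D t 0) u z m) (hbad : 9 ≤ m ∨ 200 ≤ z) (hq : Qp D u) :
    Qp D (u + z + m) := by
  rcases Nat.lt_or_ge m 9 with hm | hm
  · have hz : 200 ≤ z := by omega
    refine qp_short pat wht h hb (by omega) (by omega) ?_
    have h1 := hq (z - 90) (by omega) (fun t ht1 ht2 => hb.2.2.2.1 t ht1 (by omega))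
    rw [show u + 1 + (z - 90) = u + 1 + z - 90 by omega] at h1
    exact h1
  · exact qp_long pat h hb hm

/-- the base of the induction -/
theorem qp_base (pat : PatStmt) (wht : WhtStmt) {D : ℕ → ℕ → Bool} (h : Dia D) {N L : ℕ}
    (hL : 200 ≤ L)
    (hS : ∀ r, 1 ≤ r → r ≤ 8 → ∀ s1 s2, L ≤ s1 → L ≤ s2 →
      ∀ D, Dia D → (∀ t < s1, D t 0 = false) → D s1 0 = true → D (s1 + r - 1) 0 = true →
      (∀ t < s2, D (s1 + r + t) 0 = false) →
      D (s1 - 90) 1 = false → D (s1 + r + (s2 - 90)) 1 = false → False)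
    (hinf : ∀ T, ∃ t, T ≤ t ∧ D t 0 = true) (hinf' : ∀ T, ∃ t, T ≤ t ∧ D t 0 = false)
    (hbad : ∀ u z m, N ≤ u → Blk (fun t => D t 0) u z m → 9 ≤ m ∨ L ≤ z) :
    ∃ w, N ≤ w ∧ D w 0 = true ∧ D (w + 1) 0 = false ∧ Qp D w := by
  -- an end of a run of ones
  obtain ⟨u, hu1, hu2, hu3⟩ : ∃ u, N ≤ u ∧ D u 0 = true ∧ D (u + 1) 0 = false := by
    obtain ⟨t, ht1, ht2⟩ := hinf (N + 1)
    obtain ⟨z, hz1, hz2, hz3⟩ := next_run (x := fun t => D t 0) (b := false) (u := t - 1)
      (by rw [show t - 1 + 1 = t by omega]; simpa using ht2) hinf'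
    refine ⟨t - 1 + z, by omega, ?_, hz3⟩
    simpa using hz2 (t - 1 + z) (by omega) le_rfl
  obtain ⟨z0, m0, hB0⟩ := exists_blk (x := fun t => D t 0) hu2 hu3 hinf hinf'
  have he0 : D (u + z0 + m0) 0 = true := hB0.2.2.2.2.1 _ (by have := hB0.2.1; omega) le_rfl
  obtain ⟨z1, m1, hB1⟩ := exists_blk (x := fun t => D t 0) he0 hB0.2.2.2.2.2 hinf hinf'
  have he1 : D (u + z0 + m0 + z1 + m1) 0 = true :=
    hB1.2.2.2.2.1 _ (by have := hB1.2.1; omega) le_rfl
  by_cases hm0 : 9 ≤ m0
  · exact ⟨u + z0 + m0, by omega, he0, hB0.2.2.2.2.2, qp_long pat h hB0 hm0⟩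
  by_cases hm1 : 9 ≤ m1
  · exact ⟨u + z0 + m0 + z1 + m1, by omega, he1, hB1.2.2.2.2.2, qp_long pat h hB1 hm1⟩
  have hz0 : L ≤ z0 := by
    rcases hbad u z0 m0 hu1 hB0 with h' | h'
    · exact absurd h' hm0
    · exact h'
  have hz1 : L ≤ z1 := by
    rcases hbad (u + z0 + m0) z1 m1 (by omega) hB1 with h' | h'
    · exact absurd h' hm1
    · exact h'
  by_cases hc0 : D (u + 1 + z0 - 90) 1 = true
  · exact ⟨u + z0 + m0, by omega, he0, hB0.2.2.2.2.2,
      qp_short pat wht h hB0 (by omega) (by omega) hc0⟩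
  by_cases hc1 : D (u + z0 + m0 + 1 + z1 - 90) 1 = true
  · exact ⟨u + z0 + m0 + z1 + m1, by omega, he1, hB1.2.2.2.2.2,
      qp_short pat wht h hB1 (by omega) (by omega) hc1⟩
  exfalso
  rw [Bool.not_eq_true] at hc0 hc1
  obtain ⟨a1, a2, a3, a4, a5, a6⟩ := hB0
  obtain ⟨b1, b2, b3, b4, b5, b6⟩ := hB1
  refine hS m0 a2 (by omega) z0 z1 hz0 hz1 (fun t k => D (u + 1 + t) k)
    (dia_shift h (u + 1)) (fun t ht => a4 _ (by omega) (by omega)) ?_ ?_
    (fun t ht => b4 _ (by omega) (by omega)) ?_ ?_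
  · exact a5 _ (by omega) (by omega)
  · exact a5 _ (by omega) (by omega)
  · show D (u + 1 + (z0 - 90)) 1 = false
    rw [show u + 1 + (z0 - 90) = u + 1 + z0 - 90 by omega]
    exact hc0
  · show D (u + 1 + (z0 + m0 + (z1 - 90))) 1 = false
    rw [show u + 1 + (z0 + m0 + (z1 - 90)) = u + z0 + m0 + 1 + z1 - 90 by omega]
    exact hc1

/-- The induction: `Qp` for all ends of runs of ones from the base on. -/
theorem qp_all (pat : PatStmt) (wht : WhtStmt) {D : ℕ → ℕ → Bool} (h : Dia D) {w L : ℕ}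
    (hL : 200 ≤ L) (h0 : D w 0 = true) (h1 : D (w + 1) 0 = false) (hq : Qp D w)
    (hbad : ∀ u z m, w ≤ u → Blk (fun t => D t 0) u z m → 9 ≤ m ∨ L ≤ z) :
    ∀ u, w ≤ u → D u 0 = true → D (u + 1) 0 = false → Qp D u := by
  intro u
  induction u using Nat.strong_induction_on with
  | _ u ih =>
    intro hwu h2 h3
    rcases Nat.eq_or_lt_of_le hwu with he | hlt
    · rw [← he]; exact hq
    · obtain ⟨u0, z, m, h4, h5, h6⟩ := prev_blk (x := fun t => D t 0) h0 h1 hlt h2 h3
      have hz1 := h5.1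
      have hm1 := h5.2.1
      rw [h6]
      refine qp_step pat wht h h5 ?_ (ih u0 (by omega) h4 h5.2.2.1
        (h5.2.2.2.1 _ (by omega) (by omega)))
      rcases hbad u0 z m h4 h5 with h' | h'
      · exact Or.inl h'
      · exact Or.inr (by omega)

/-- The core: column `1` is periodic at the zeros of a periodic driver without bad blocks. -/
theorem core (pat : PatStmt) (wht : WhtStmt) (ag2 : Ag2Stmt) {D : ℕ → ℕ → Bool} (h : Dia D)
    {N L p : ℕ} (hL : 200 ≤ L)
    (hS : ∀ r, 1 ≤ r → r ≤ 8 → ∀ s1 s2, L ≤ s1 → L ≤ s2 →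
      ∀ D, Dia D → (∀ t < s1, D t 0 = false) → D s1 0 = true → D (s1 + r - 1) 0 = true →
      (∀ t < s2, D (s1 + r + t) 0 = false) →
      D (s1 - 90) 1 = false → D (s1 + r + (s2 - 90)) 1 = false → False)
    (hper : ∀ t, N ≤ t → D (t + p) 0 = D t 0)
    (hinf : ∀ T, ∃ t, T ≤ t ∧ D t 0 = true) (hinf' : ∀ T, ∃ t, T ≤ t ∧ D t 0 = false)
    (hbad : ∀ u z m, N ≤ u → Blk (fun t => D t 0) u z m → 9 ≤ m ∨ L ≤ z) :
    ∃ M, ∀ t, M ≤ t → D t 0 = false → D (t + p) 1 = D t 1 := by
  obtain ⟨w, hw1, hw2, hw3, hw4⟩ := qp_base pat wht h hL hS hinf hinf' hbad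
  have hq := qp_all pat wht h hL hw2 hw3 hw4 (fun u z m h1 h2 => hbad u z m (by omega) h2)
  obtain ⟨z0, m0, hB0⟩ := exists_blk (x := fun t => D t 0) hw2 hw3 hinf hinf'
  obtain ⟨w', hw'⟩ : ∃ w', w' = w + z0 + m0 := ⟨_, rfl⟩
  have hww : w < w' := by have := hB0.1; omega
  have hw'1 : D w' 0 = true := by
    rw [hw']; exact hB0.2.2.2.2.1 _ (by have := hB0.2.1; omega) le_rfl
  have hw'2 : D (w' + 1) 0 = false := by rw [hw']; exact hB0.2.2.2.2.2
  refine ⟨w' + 1, fun t ht h0 => ?_⟩
  -- the end `u1` of the run of ones before `t`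
  obtain ⟨u1, hu1, hu2, hu3, hu4⟩ := zero_end (x := fun t => D t 0) hw'1 hw'2
    (show w' < t by omega) h0
  obtain ⟨u0, z, m, hu5, hB, hu6⟩ := prev_blk (x := fun t => D t 0) hw2 hw3
    (show w < u1 by omega) hu3 (hu4 _ (by omega) (by omega))
  have hz1 := hB.1
  have hm1 := hB.2.1
  -- the same one period later
  have hpz : ∀ q, u0 + p < q → q ≤ u0 + p + z → D q 0 = false := by
    intro q hq1 hq2
    obtain ⟨q, rfl⟩ : ∃ q', q = q' + p := ⟨q - p, by omega⟩
    rw [hper q (by omega)]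
    exact hB.2.2.2.1 q (by omega) (by omega)
  have hpo : ∀ q, u0 + z + p < q → q ≤ u0 + z + m + p → D q 0 = true := by
    intro q hq1 hq2
    obtain ⟨q, rfl⟩ : ∃ q', q = q' + p := ⟨q - p, by omega⟩
    rw [hper q (by omega)]
    exact hB.2.2.2.2.1 q (by omega) (by omega)
  have hpt : ∀ q, u1 + p < q → q ≤ t + p → D q 0 = false := by
    intro q hq1 hq2
    obtain ⟨q, rfl⟩ : ∃ q', q = q' + p := ⟨q - p, by omega⟩
    rw [hper q (by omega)]
    exact hu4 q (by omega) (by omega)
  by_cases hm : 9 ≤ m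
  · -- long run of ones
    have hA := ostep pat h (s := u0 + z + 1) (n := m) (z := t - u1) hm
      (fun q hq1 hq2 => hB.2.2.2.2.1 q (by omega) (by omega))
      (fun q hq1 hq2 => hu4 q (by omega) (by omega))
    have hA' := ostep pat h (s := u0 + z + 1 + p) (n := m) (z := t - u1) hm
      (fun q hq1 hq2 => hpo q (by omega) (by omega))
      (fun q hq1 hq2 => hpt q (by omega) (by omega))
    rcases Nat.eq_or_lt_of_le (show u1 + 1 ≤ t by omega) with he | hlt
    · have e1 : u0 + z + 1 + m = t := by omega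
      have e2 : u0 + z + 1 + p + m = t + p := by omega
      rw [e1] at hA
      rw [e2] at hA'
      rw [hA.1, hA'.1]
    · have hA2 := hA.2 (t - (u0 + z + 1 + m)) (by omega) (by omega)
      have hA2' := hA'.2 (t - (u0 + z + 1 + m)) (by omega) (by omega)
      have e1 : u0 + z + 1 + m + (t - (u0 + z + 1 + m)) = t := by omega
      have e2 : u0 + z + 1 + p + m + (t - (u0 + z + 1 + m)) = t + p := by omega
      rw [e1] at hA2
      rw [e2] at hA2'
      rw [hA2, hA2']
  · have hz : L ≤ z := by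
      rcases hbad u0 z m (by omega) hB with h' | h'
      · exact absurd h' hm
      · exact h'
    rcases Nat.lt_or_ge t (u1 + 1 + 21) with hv | hv
    · -- beginning of the run of zeros
      have hq0 := hq u0 (by omega) hB.2.2.1 (hB.2.2.2.1 _ (by omega) (by omega))
      have hq0' := hq (u0 + p) (by omega) (by rw [hper u0 (by omega)]; exact hB.2.2.1)
        (hpz _ (by omega) (by omega))
      obtain ⟨n, hn⟩ : ∃ n, n = z - 20 := ⟨_, rfl⟩
      obtain ⟨j, hj⟩ : ∃ j, j = (n - 2) / 7 := ⟨_, rfl⟩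
      have hag := ag2 _ _ (dia_shift h (u0 + 22 + p)) (dia_shift h (u0 + 22)) n j (by omega)
        (by omega)
        (fun q => by
          change D (u0 + 22 + p + q) 0 = D (u0 + 22 + q) 0
          rw [show u0 + 22 + p + q = u0 + 22 + q + p by omega]
          exact hper _ (by omega))
        (fun q hqn => by
          change D (u0 + 22 + p + q) 1 = true
          have := hq0' (21 + q) (by omega) (fun q' h1 h2 => hpz q' h1 (by omega))
          rw [show u0 + p + 1 + (21 + q) = u0 + 22 + p + q by omega] at this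
          exact this)
        (fun q hqn => by
          change D (u0 + 22 + q) 1 = true
          have := hq0 (21 + q) (by omega) (fun q' h1 h2 => hB.2.2.2.1 q' h1 (by omega))
          rw [show u0 + 1 + (21 + q) = u0 + 22 + q by omega] at this
          exact this)
        (t - (u0 + 22)) (by omega)
      have hag' : D (u0 + 22 + p + (t - (u0 + 22))) 1 = D (u0 + 22 + (t - (u0 + 22))) 1 := hag
      rw [show u0 + 22 + p + (t - (u0 + 22)) = t + p by omega,
        show u0 + 22 + (t - (u0 + 22)) = t by omega] at hag'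
      exact hag'
    · have hq1 := hq u1 (by omega) hu3 (hu4 _ (by omega) (by omega)) (t - (u1 + 1)) (by omega)
        (fun q h1 h2 => hu4 q h1 (by omega))
      have hq1' := hq (u1 + p) (by omega) (by rw [hper u1 (by omega)]; exact hu3)
        (hpt _ (by omega) (by omega)) (t - (u1 + 1)) (by omega)
        (fun q h1 h2 => hpt q h1 (by omega))
      rw [show u1 + 1 + (t - (u1 + 1)) = t by omega] at hq1
      rw [show u1 + p + 1 + (t - (u1 + 1)) = t + p by omega] at hq1'
      rw [hq1, hq1']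

end Pool.Agent.H16R30C
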