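import Pool.Agent.Helper65_R30B.ZRO
import Pool.Agent.Helper37_R30B.All
import Pool.Agent.Helper16_R30C.Core

/-!
# Rule 30: short runs in an eventually periodic column

Theorem `short_block`: there is an absolute constant `L` such that an eventually periodic column of
the diagram of a row with a leftmost black cell contains, arbitrarily late, fewer than `L` zeros
between two ones followed by a run of at most eight ones.  Theorem `all_long`: it contains,
arbitrarily late, a run of at most eight ones.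
-/

set_option autoImplicit false

namespace Pool.Agent.H16R30C

open Pool.Agent.H21R30 Pool.Agent.R30B

theorem dia_cell (c : ℤ → Bool) (i : ℤ) : Dia (fun t k => cell c t (i + (k : ℤ))) := by
  intro t k
  have e2 : i + ((k + 1 : ℕ) : ℤ) - 1 = i + (k : ℤ) := by push_cast; ring
  have e3 : i + ((k + 1 : ℕ) : ℤ) + 1 = i + ((k + 2 : ℕ) : ℤ) := by push_cast; ring
  show cell c (t + 1) (i + ((k + 1 : ℕ) : ℤ)) = _
  rw [cell_succ, e2, e3]

/-- The common bound of `zcb2` for `r ≤ R`. -/
theorem bound (zc : Zcb2Stmt) (K R : ℕ) (hR : 2 * R + 1 ≤ K) : ∃ S : ℕ, ∀ r, 1 ≤ r → r ≤ R →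
    ∀ s1 s2, S ≤ s1 → S ≤ s2 →
      ∀ D, Dia D → (∀ t < s1, D t 0 = false) → D s1 0 = true → D (s1 + r - 1) 0 = true →
      (∀ t < s2, D (s1 + r + t) 0 = false) →
      D (s1 - K) 1 = false → D (s1 + r + (s2 - K)) 1 = false → False := by
  induction R with
  | zero => exact ⟨0, fun r h1 h2 => by omega⟩
  | succ R ih =>
    obtain ⟨S, hS⟩ := ih (by omega)
    obtain ⟨S', hS'⟩ := zc (R + 1) K (by omega) hR
    refine ⟨S + S', fun r h1 h2 s1 s2 hs1 hs2 => ?_⟩
    rcases Nat.lt_or_ge R r with h | h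
    · have : r = R + 1 := by omega
      subst this
      exact hS' s1 s2 (by omega) (by omega)
    · exact hS r h1 h s1 s2 (by omega) (by omega)

/-- A column is not eventually constant. -/
theorem not_const (c : ℤ → Bool) (l : ℤ) (h0 : ∀ i, i < l → c i = false) (h1 : c l = true)
    (i : ℤ) (b : Bool) (T : ℕ) (h : ∀ t, T ≤ t → cell c t i = b) : False := by
  have hcol : EvPeriodic (fun t => cell c t i) :=
    ⟨1, T, one_pos, fun t ht => by
      show cell c (t + 1) i = cell c t i
      rw [h t ht, h (t + 1) (by omega)]⟩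
  cases b
  · refine ev_of_two c l h0 h1 i (i + 1) (by linarith) hcol (H65.zro_mono (T := T) ?_)
    intro t ht h2
    have e2 : i + 1 - 1 = i := by ring
    show cell c (t + 1) (i + 1) = true
    have h2' : cell c t (i + 1) = true := h2
    rw [cell_succ, e2, h t ht, h2']
    simp
  · refine ev_of_two c l h0 h1 (i - 1) i (by linarith) ⟨1, T, one_pos, fun t ht => ?_⟩ hcol
    show cell c (t + 1) (i - 1) = cell c t (i - 1)
    rw [cell_left, cell_left, h t ht, h (t + 1) (by omega), h (t + 1 + 1) (by omega)]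
    simp

/-- If column `i` is `p`-periodic and column `i + 1` is `p`-periodic at the zeros of column `i`,
contradiction. -/
theorem not_zero_periodic (c : ℤ → Bool) (l : ℤ) (h0 : ∀ i, i < l → c i = false) (h1 : c l = true)
    (i : ℤ) (p N : ℕ) (hp : 0 < p) (hper : ∀ t, N ≤ t → cell c (t + p) i = cell c t i)
    (h : ∀ t, N ≤ t → cell c t i = false → cell c (t + p) (i + 1) = cell c t (i + 1)) :
    False := by
  refine ev_of_two c l h0 h1 (i - 1) i (by linarith) ⟨p, N, hp, fun t ht => ?_⟩ ⟨p, N, hp, hper⟩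
  show cell c (t + p) (i - 1) = cell c t (i - 1)
  rw [cell_left, cell_left, hper t ht, show t + p + 1 = t + 1 + p by omega,
    hper (t + 1) (by omega)]
  cases hx : cell c t i
  · rw [h t ht hx]
  · simp

/-- An eventually periodic column takes both values arbitrarily late. -/
theorem both (c : ℤ → Bool) (l : ℤ) (h0 : ∀ i, i < l → c i = false) (h1 : c l = true)
    (i : ℤ) (b : Bool) (T : ℕ) : ∃ t, T ≤ t ∧ cell c t i = b := by
  by_contra hcon
  push Not at hcon
  refine not_const c l h0 h1 i (!b) T fun t ht => ?_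
  have := hcon t ht
  revert this
  cases cell c t i <;> cases b <;> simp

/-- **Theorem M.** There is `L` such that an eventually periodic column contains, arbitrarily late,
a one, then `z < L` zeros, then `m ≤ 8` ones, then a zero. -/
theorem short_block_of (pat : PatStmt) (wht : WhtStmt) (ag2 : Ag2Stmt) (zc : Zcb2Stmt) :
    ∃ L : ℕ, ∀ (c : ℤ → Bool) (l : ℤ), (∀ i, i < l → c i = false) → c l = true →
      ∀ (i : ℤ) (p N : ℕ), 0 < p → (∀ t, N ≤ t → cell c (t + p) i = cell c t i) →
        ∀ T : ℕ, ∃ t z m : ℕ, T ≤ t ∧ 1 ≤ z ∧ z < L ∧ 1 ≤ m ∧ m ≤ 8 ∧ cell c t i = true ∧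
          (∀ q, t < q → q ≤ t + z → cell c q i = false) ∧
          (∀ q, t + z < q → q ≤ t + z + m → cell c q i = true) ∧
          cell c (t + z + m + 1) i = false := by
  obtain ⟨S, hS⟩ := bound zc 90 8 (by norm_num)
  refine ⟨200 + S, ?_⟩
  intro c l h0 h1 i p N hp hper T
  by_contra hcon
  obtain ⟨D, hDe⟩ : ∃ D : ℕ → ℕ → Bool, 
      D = fun (t k : ℕ) => cell c t (i + (k : ℤ)) := ⟨_, rfl⟩
  have hD : Dia D := by rw [hDe]; exact dia_cell c i
  have e0 : ∀ t, D t 0 = cell c t i := by
    intro t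
    rw [hDe]
    show cell c t (i + ((0 : ℕ) : ℤ)) = cell c t i
    rw [Nat.cast_zero, add_zero]
  have e1 : ∀ t, D t 1 = cell c t (i + 1) := by
    intro t
    rw [hDe]
    show cell c t (i + ((1 : ℕ) : ℤ)) = cell c t (i + 1)
    rw [Nat.cast_one]
  obtain ⟨M, hM⟩ := core pat wht ag2 hD (N := N + T) (L := 200 + S) (p := p) (by omega)
    (fun r hr1 hr2 s1 s2 hs1 hs2 => hS r hr1 hr2 s1 s2 (by omega) (by omega))
    (fun t ht => by rw [e0, e0]; exact hper t (by omega))
    (fun T => by
      obtain ⟨t, ht1, ht2⟩ := both c l h0 h1 i true T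
      exact ⟨t, ht1, by rw [e0]; exact ht2⟩)
    (fun T => by
      obtain ⟨t, ht1, ht2⟩ := both c l h0 h1 i false T
      exact ⟨t, ht1, by rw [e0]; exact ht2⟩)
    (fun u z m hu hB => by
      by_contra hno
      push Not at hno
      obtain ⟨hz, hm, a0, a1, a2, a3⟩ := hB
      refine hcon ⟨u, z, m, by omega, hz, by omega, hm, by omega, ?_, fun q hq1 hq2 => ?_,
        fun q hq1 hq2 => ?_, ?_⟩
      · rw [← e0]; exact a0
      · rw [← e0]; exact a1 q hq1 hq2
      · rw [← e0]; exact a2 q hq1 hq2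
      · rw [← e0]; exact a3)
  refine not_zero_periodic c l h0 h1 i p (N + M) hp (fun t ht => hper t (by omega)) ?_
  intro t ht hx
  have h2 := hM t (by omega) (by rw [e0]; exact hx)
  rw [e1, e1] at h2
  exact h2

theorem zcb2_ : Zcb2Stmt := zcb2 All.wht_ All.blk_ All.edg_

/-- **Theorem M**, unconditional. -/
theorem short_block :
    ∃ L : ℕ, ∀ (c : ℤ → Bool) (l : ℤ), (∀ i, i < l → c i = false) → c l = true →
      ∀ (i : ℤ) (p N : ℕ), 0 < p → (∀ t, N ≤ t → cell c (t + p) i = cell c t i) →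
        ∀ T : ℕ, ∃ t z m : ℕ, T ≤ t ∧ 1 ≤ z ∧ z < L ∧ 1 ≤ m ∧ m ≤ 8 ∧ cell c t i = true ∧
          (∀ q, t < q → q ≤ t + z → cell c q i = false) ∧
          (∀ q, t + z < q → q ≤ t + z + m → cell c q i = true) ∧
          cell c (t + z + m + 1) i = false :=
  short_block_of All.pat_ All.wht_ All.ag2_ zcb2_

end Pool.Agent.H16R30C
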